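import Pool.Agent.H33.VI

/-!
The Lang-Vojta bound of the degrees of curves in varieties which are generically finite over products of
projective manifolds with positive 2-forms and metrics of nonpositive curvature.
-/

set_option autoImplicit false

open LinearAlgebra.Projectivization MvPolynomial MeasureTheory
open scoped UpperHalfPlane MatrixGroups
open Pool.Agent.W602.GT Pool.Agent.N155.BB Pool.Agent.H33

/-- For each `a` in the finite set `J` let `X_a = {F a = 0}` be a projective manifold of dimension `d a`
with positive 2-forms and a metric of nonpositive holomorphic sectional curvature (`NonposManifold`).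
Let `V = {G = 0}` be an irreducible projective algebraic set, possibly singular, and let `P a` be
rational maps from `V` to `X_a`, such that the map `(P a)_a` from `V` to the product of the `X_a` is
generically finite (not necessarily dominant). Suppose that for each `a` either the image of `P a` has
dimension at least two, or `X_a` is Brody hyperbolic (for instance a curve of genus at least two).

Then there are a form `T` which is not identically zero on `V`, and a number `α`, with the following
properties.

* Every nonconstant holomorphic map from the plane to `V` has its image in `{T = 0}`.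
* Let `D` be a bounded fundamental domain of a countable group `Γ` of Möbius transformations of the
  upper half plane `ℍ`, so that (if `Γ` acts freely and properly) `ℍ / Γ` is a compact Riemann surface
  of genus `g ≥ 2` and `volume D = 4 π (g - 1)`. Then every holomorphic map from `ℍ / Γ` to `V` whose
  image is not contained in `{T = 0}` has degree at most `α * volume D`. -/
theorem Pool.Agent.Results.MP_70ba79_ag.GenericallyFinite.result {J : Type} [Fintype J]
    {n d : J → ℕ} {ι : J → Type} (F : ∀ a, ι a → MvPolynomial (Fin (n a + 1)) ℂ)
    (hX : ∀ a, NonposManifold (F a) (d a))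
    (m : ℕ) (ι' : Type) (G : ι' → MvPolynomial (Fin (m + 1)) ℂ)
    (P : ∀ a, Fin (n a + 1) → MvPolynomial (Fin (m + 1)) ℂ) (hP : ∀ a, RationalMap G (F a) (P a))
    (hirr : IrreducibleSet G)
    (hdim : ∀ a, TwoDimensional G (P a) ∨ ((∃ y ∈ Cone G, ratVal (P a) y ≠ 0) ∧
      ∀ f, HolIn (F a) f → ∀ z w, f z = f w))
    (hgf : JointlyFinite G P) :
    ∃ (T : MvPolynomial (Fin (m + 1)) ℂ) (α : ℝ), IsForm T ∧ (∃ y ∈ Cone G, eval y T ≠ 0) ∧
      (∀ g, HolIn G g → (∃ z w, g z ≠ g w) → ∀ z, eval (g z).rep T = 0) ∧
      ∀ (Γ : Subgroup SL(2, ℝ)) (D : Set ℍ), CompactDomain Γ D →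
        ∀ g : ℍ → ℙ ℂ (Fin (m + 1) → ℂ), HolH (Cone G) g → (∀ γ ∈ Γ, ∀ z, g (γ • z) = g z) →
        (∃ z, eval (g z).rep T ≠ 0) → degree g D ≤ ENNReal.ofReal α * volume D := by
  choose hX hη hΦ using hX
  choose ν κ η hκ hν hη hh using hη
  choose Φ hΦ hnd hr using hΦ
  exact joint_bound hX hη hν hh hΦ hnd hr hP hirr hdim hgf
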