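import Pool.Agent.H33.MI

/-!
Holomorphic maps from compact Riemann surfaces to projective manifolds with positive 2-forms (for
surfaces: of general type) and a Hermitian metric of nonpositive holomorphic sectional curvature:
the degree is bounded by a linear function of the genus, modulo a proper algebraic subset.
-/

set_option autoImplicit false

open LinearAlgebra.Projectivization MvPolynomial Topology MeasureTheory
open scoped UpperHalfPlane MatrixGroups
open Pool.Agent.W602.GT Pool.Agent.N155.BB Pool.Agent.H33

/-- Let `X = {F = 0}` be a projective manifold of dimension `d` whose 2-forms are positive: there are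
finitely many sections of `Sym ^ ν (Λ² Ω) ⊗ O (-1)`, for some `ν > 0`, whose values at `(v ∧ w) ^ ν`
are not all zero for linearly independent tangent vectors `v`, `w`. This holds if `Λ² Ω` is ample, and
if `d = 2`, it holds if the canonical bundle is ample. Let `Φ` be a metric on `X` whose holomorphic
sectional curvature is nonpositive; here `Φ` is a Hermitian metric with twice continuously
differentiable coefficients, or more generally a uniformly convex complex Finsler metric. (A surface
of general type with such a metric does not contain rational curves, so its canonical bundle is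
ample, and the theorem applies.)

Then there is a finite set `S` of nonconstant doubly periodic holomorphic maps `h` from the complex
plane to `X` with `|h'| = 1` with the following properties. Let `Z` be the union of the (elliptic)
curves `h (ℂ)`.

* Every nonconstant holomorphic map from the complex plane to `X` has its image in `Z`. In particular
  this holds for the nonconstant holomorphic maps from compact Riemann surfaces of genus `0` or `1`.
* There is a number `α` with the following property. Let `Γ` be a countable group of Möbius
  transformations of the upper half plane `ℍ` with a bounded fundamental domain `D`, so that `ℍ / Γ`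
  is a compact Riemann surface of genus `g ≥ 2`, where `volume D = 4 π (g - 1)` (if `Γ` acts freely
  and properly). Then the degree of every holomorphic map from `ℍ / Γ` to `X` (that is, of a
  `Γ`-invariant holomorphic map `f` from `ℍ` to `X`) whose image is not contained in `Z` is at most
  `α * volume D`.
* If `d ≥ 2` then `Z` is contained in a proper algebraic subset `X ∩ {E = 0}` of `X`; for a given
  point `x` of `X`, the form `E` can be chosen so that it does not vanish identically on `X` near
  `x`.

So if `X` is groupless then `S` is empty, and `X` is algebraically hyperbolic. -/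
theorem Pool.Agent.Results.MP_70ba79_ag.LinearBound.result {n d ν : ℕ} {ι κ : Type}
    [Finite κ] (F : ι → MvPolynomial (Fin (n + 1)) ℂ) (hX : ProjManifold F d)
    (η : κ → (Fin (n + 1) → ℂ) → (Fin (n + 1) → ℂ) → (Fin (n + 1) → ℂ) → ℂ)
    (hη : PositiveTwoForms (Cone F) ∅ d η) (hν : ν ≠ 0) (hh : HomForms (Cone F) ν η)
    (Φ : (Fin (n + 1) → ℂ) → (Fin (n + 1) → ℂ) → ℝ) (hΦ : NonposMetric (Cone F) d Φ)
    (hnd : Nondegenerate (Cone F) d Φ)
    (hr : HermitianMetric (Cone F) d Φ ∨ UniformlyConvex (Cone F) d Φ) :
    ∃ S : Finset (ℂ → ℙ ℂ (Fin (n + 1) → ℂ)),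
      (∀ h ∈ S, HolIn F h ∧ DoublyPeriodic h ∧ HasSpeed Φ 1 h ∧ ∃ z w, h z ≠ h w) ∧
      (∀ f, HolIn F f → (∃ z w, f z ≠ f w) → ∀ z, ∃ h ∈ S, ∃ w, f z = h w) ∧
      (∃ α : ℝ, ∀ (Γ : Subgroup SL(2, ℝ)) (D : Set ℍ), CompactDomain Γ D →
        ∀ f : ℍ → ℙ ℂ (Fin (n + 1) → ℂ), HolH (Cone F) f →
        (∀ γ ∈ Γ, ∀ z, f (γ • z) = f z) → (∃ z, ∀ h ∈ S, ∀ w, f z ≠ h w) →
        degree f D ≤ ENNReal.ofReal α * volume D) ∧
      (2 ≤ d → ∀ x ∈ Cone F, ∃ E : MvPolynomial (Fin (n + 1)) ℂ, IsForm E ∧
        (¬ ∀ᶠ y in 𝓝[Cone F] x, eval y E = 0) ∧ ∀ h ∈ S, ∀ z, eval (h z).rep E = 0) :=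
  alg_hyp hX hη hν hh hΦ hnd hr
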